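import Pool.Agent.H247.VE.Stm
import Pool.Graph.R_seed8.Y675.CO.CI

/-!
# Volume expansion near a point, for nearby maps (helper file for helper247)
-/

set_option autoImplicit false

open scoped Manifold ContDiff Topology
open Filter Set Metric MeasureTheory

universe u

namespace Pool.Agent.H260.VE

open Pool.Agent.H718R2.G Pool.Agent.TH80.OMS Pool.Agent.H247.VE

/-- the image of a measurable set in the source of a chart is measurable -/
theorem meas_image {n : ℕ} {N : Type u} [TopologicalSpace N] [MeasurableSpace N] [BorelSpace N]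
    (φ : OpenPartialHomeomorph N (V n)) {B : Set N} (hB : B ⊆ φ.source) (hm : MeasurableSet B) :
    MeasurableSet (φ '' B) := by
  have h1 : φ '' B = φ.target ∩ φ.symm ⁻¹' B := by
    ext v
    constructor
    · rintro ⟨y, hy, rfl⟩
      refine ⟨φ.map_source (hB hy), ?_⟩
      change φ.symm (φ y) ∈ B
      rwa [φ.left_inv (hB hy)]
    · rintro ⟨h1, h2⟩
      exact ⟨φ.symm v, h2, φ.right_inv h1⟩
  have h2 : φ.target ∩ φ.symm ⁻¹' B =
      Subtype.val '' ((φ.target.domRestrict φ.symm) ⁻¹' B) := by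
    ext v
    constructor
    · rintro ⟨h1, h2⟩
      exact ⟨⟨v, h1⟩, h2, rfl⟩
    · rintro ⟨⟨w, hw⟩, h, rfl⟩
      exact ⟨hw, h⟩
  have h3 : Continuous (φ.target.domRestrict φ.symm) :=
    continuousOn_iff_continuous_domRestrict.1 φ.continuousOn_symm
  rw [h1, h2]
  exact MeasurableSet.subtype_image φ.open_target.measurableSet (h3.measurable hm)

theorem iter_homeo {n : ℕ} {N : Type u} [TopologicalSpace N] [ChartedSpace (V n) N] {r : ℕ∞}
    (G : DiffM n N r) (m : ℕ) : ∃ H : N ≃ₜ N, ∀ y, H y = G^[m] y := by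
  induction m with
  | zero => exact ⟨Homeomorph.refl N, fun y => rfl⟩
  | succ m ih =>
    obtain ⟨H, hH⟩ := ih
    refine ⟨H.trans G.toHomeomorph, fun y => ?_⟩
    rw [Function.iterate_succ_apply', ← hH y]
    rfl

theorem expo {n : ℕ} {u w lam : ℝ} {D : V n →L[ℝ] V n} (h : lam * u < w * |D.det|) :
    ∃ ε : ℝ, 0 < ε ∧ ∀ (u' w' : ℝ) (A : V n →L[ℝ] V n), |u' - u| < ε → |w' - w| < ε →
      ‖A - D‖ < ε → lam * u' < w' * |A.det| := by
  have h1 : IsOpen {p : ℝ × ℝ × (V n →L[ℝ] V n) | lam * p.1 < p.2.1 * |p.2.2.det|} := by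
    refine isOpen_lt (by fun_prop) ?_
    exact (continuous_fst.comp continuous_snd).mul
      ((ContinuousLinearMap.continuous_det.comp (continuous_snd.comp continuous_snd)).abs)
  obtain ⟨ε, hε, hb⟩ := Metric.isOpen_iff.1 h1 (u, w, D) h
  refine ⟨ε, hε, fun u' w' A h2 h3 h4 => ?_⟩
  have h5 : ((u', w', A) : ℝ × ℝ × (V n →L[ℝ] V n)) ∈ ball (u, w, D) ε := by
    rw [mem_ball, Prod.dist_eq, Prod.dist_eq, Real.dist_eq, Real.dist_eq, dist_eq_norm]
    exact max_lt h2 (max_lt h3 h4)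
  exact hb h5

theorem main : S_VL.{u} := by
  intro n N _ _ _ _ _ _ _ μ _ r hr F m x hE
  obtain ⟨ρ, ρ', hρ, hρ', hlt⟩ := hE
  set φ := chartAt (V n) x with hφ
  set ψ := chartAt (V n) (F^[m] x) with hψ
  have hφm : φ ∈ IsManifold.maximalAtlas (𝓡 n) ∞ N := IsManifold.chart_mem_maximalAtlas x
  have hψm : ψ ∈ IsManifold.maximalAtlas (𝓡 n) ∞ N := IsManifold.chart_mem_maximalAtlas _
  have hxφ : x ∈ φ.source := mem_chart_source (V n) x
  have hxψ : F^[m] x ∈ ψ.source := mem_chart_source (V n) _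
  have hpos : 0 < ρ (φ x) := hρ.2.1 _ (φ.map_source hxφ)
  obtain ⟨lam, hl1, hl2⟩ : ∃ lam : ℝ, 1 < lam ∧ lam * ρ (φ x) < ρ' (ψ (F^[m] x)) *
      |(fderiv ℝ (fun v => ψ (F^[m] (φ.symm v))) (φ x)).det| := by
    obtain ⟨lam, h1, h2⟩ := exists_between ((one_lt_div hpos).2 hlt)
    exact ⟨lam, h1, (lt_div_iff₀ hpos).1 h2⟩
  obtain ⟨ε, hε, hex⟩ := expo hl2
  -- neighbourhoods
  have c1 : ContinuousAt (fun y => ρ (φ y)) x := by
    have a1 : ContinuousAt ρ (φ x) := hρ.1.continuousAt (φ.open_target.mem_nhds (φ.map_source hxφ))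
    exact ContinuousAt.comp (f := φ) (g := ρ) a1 (φ.continuousAt hxφ)
  have c2 : ContinuousAt (fun y => ρ' (ψ y)) (F^[m] x) := by
    have a1 : ContinuousAt ρ' (ψ (F^[m] x)) :=
      hρ'.1.continuousAt (ψ.open_target.mem_nhds (ψ.map_source hxψ))
    exact ContinuousAt.comp (f := ψ) (g := ρ') a1 (ψ.continuousAt hxψ)
  have w1 : {y | |ρ (φ y) - ρ (φ x)| < ε} ∈ 𝓝 x := by
    have := c1 (Metric.ball_mem_nhds _ hε)
    filter_upwards [this] with y hy
    rw [← Real.dist_eq]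
    exact hy
  have w2 : {y | |ρ' (ψ y) - ρ' (ψ (F^[m] x))| < ε} ∈ 𝓝 (F^[m] x) := by
    have := c2 (Metric.ball_mem_nhds _ hε)
    filter_upwards [this] with y hy
    rw [← Real.dist_eq]
    exact hy
  obtain ⟨B0, hB0, hB0o, hB0x⟩ := mem_nhds_iff.1 w2
  obtain ⟨p1, p2⟩ := Pool.Agent.Y675.CO.CI.main n N r hr F m x
  obtain ⟨W2, hW2, U2, hU2, hFU2, q2⟩ := p1 B0 hB0o hB0x
  obtain ⟨W3, hW3, U3, hU3, hFU3, q3⟩ := p2 φ hφm ψ hψm hxφ hxψ ε hε
  refine ⟨{y | |ρ (φ y) - ρ (φ x)| < ε} ∩ W2 ∩ W3, inter_mem (inter_mem w1 hW2) hW3, lam, hl1,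
    U2 ∩ U3, Pool.Agent.Y675.CO.CI.openInter hU2 hU3, ⟨hFU2, hFU3⟩, ?_⟩
  intro G hG B hB hBm
  have s1 : B ⊆ φ.source := fun y hy => (q3 G hG.2 y (hB hy).2).1
  have s2 : G^[m] '' B ⊆ ψ.source := by
    rintro _ ⟨y, hy, rfl⟩
    exact (q3 G hG.2 y (hB hy).2).2.1
  have s3 : MeasurableSet (G^[m] '' B) := by
    obtain ⟨H, hH⟩ := iter_homeo G m
    have e1 : G^[m] '' B = H '' B := by
      ext z
      simp only [mem_image, hH]
    rw [e1]
    exact H.measurableEmbedding.measurableSet_image' hBm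
  have s4 : MeasurableSet (φ '' B) := meas_image φ s1 hBm
  have hinj : Function.Injective (G^[m]) := Function.Injective.iterate G.injective m
  have e1 : ψ '' (G^[m] '' B) = (fun v => ψ (G^[m] (φ.symm v))) '' (φ '' B) := by
    rw [image_image, image_image]
    refine image_congr fun y hy => ?_
    rw [φ.left_inv (s1 hy)]
  rw [hρ.2.2 B s1 hBm, hρ'.2.2 _ s2 s3, e1]
  have hd : ∀ v ∈ φ '' B, HasFDerivWithinAt (fun v => ψ (G^[m] (φ.symm v)))
      (fderiv ℝ (fun v => ψ (G^[m] (φ.symm v))) v) (φ '' B) v := by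
    rintro _ ⟨y, hy, rfl⟩
    have h1 : ContDiffAt ℝ 1 (fun v => ψ (G^[m] (φ.symm v))) (φ y) := by
      refine Pool.Agent.Y675.CO.CI.cdm (Pool.Agent.Y675.CO.CI.smooth_iter hr G m) hφm hψm
        (φ.map_source (s1 hy)) ?_
      rw [φ.left_inv (s1 hy)]
      exact s2 ⟨y, hy, rfl⟩
    exact ((h1.differentiableAt (by simp)).hasFDerivAt).hasFDerivWithinAt
  have hi : InjOn (fun v => ψ (G^[m] (φ.symm v))) (φ '' B) := by
    rintro _ ⟨y, hy, rfl⟩ _ ⟨y', hy', rfl⟩ he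
    simp only at he
    rw [φ.left_inv (s1 hy), φ.left_inv (s1 hy')] at he
    have h1 := ψ.injOn (s2 ⟨y, hy, rfl⟩) (s2 ⟨y', hy', rfl⟩) he
    rw [hinj h1]
  rw [lintegral_image_eq_lintegral_abs_det_fderiv_mul volume s4 hd hi,
    ← lintegral_const_mul' _ _ ENNReal.ofReal_ne_top]
  refine setLIntegral_mono' s4 ?_
  rintro _ ⟨y, hy, rfl⟩
  have h1 := hex (ρ (φ y)) (ρ' (ψ (G^[m] y))) (fderiv ℝ (fun v => ψ (G^[m] (φ.symm v))) (φ y))
    (hB hy).1.1 (hB0 (q2 G hG.1 y (hB hy).1.2)) (q3 G hG.2 y (hB hy).2).2.2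
  rw [φ.left_inv (s1 hy), ← ENNReal.ofReal_mul (by linarith), ← ENNReal.ofReal_mul (abs_nonneg _)]
  refine ENNReal.ofReal_le_ofReal ?_
  rw [mul_comm |_|]
  exact h1.le

end Pool.Agent.H260.VE
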